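import Pool.Agent.X186.TG.TypeB

/-!
# A type B triangle group with a discrete, infinite, non-faithful representation

The Coxeter matrix with all off-diagonal entries `14` gives the triangle group
`Γ(14, 14, 14)`. It has type B, and for `t = arg (-(3 + ω)) = π - arctan (√3 / 5)` the complex
hyperbolic triangle group `ρ_t` is discrete and infinite, it is not injective, and `ρ_t (W_B)` is
elliptic, so `t` is not in `IZero`. So part (i) of the conjecture of the problem is false.
-/

set_option autoImplicit false

namespace Pool.Agent.Results.MP_068809_gt.TypeBNonFaithful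

open Pool.Agent.X186.TG

/-- Part (i) fails for `(14, 14, 14)`, in both of its conclusions. -/
theorem result :
    ∃ M : CoxeterMatrix (Fin 3), (∀ i j, i ≠ j → M i j = 14) ∧ TypeB M ∧
      ∃ t ∈ Set.Icc 0 Real.pi, ∃ ρ : M.Group →* PU21, IsTriangleGroup M t ρ ∧
        DiscreteInfinite ρ ∧ ¬ Function.Injective ρ ∧ IsElliptic (ρ (WB M)) ∧ t ∉ IZero M :=
  ⟨M14, M14_ne, typeB, tstar, tstar_mem, rho, triangle, ⟨discrete_range, infinite_range⟩, not_inj,
    elliptic_WB, notin_IZero tstar triangle⟩

end Pool.Agent.Results.MP_068809_gt.TypeBNonFaithful
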